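import Pool.Agent.V11293.SM.Words

set_option autoImplicit false

namespace Pool.Agent.V11293.SM

universe u

variable {X : Type u} {x : ℕ → X}

/-- Thresholds for a word that is not eventually periodic. -/
theorem exists_thresholds (hx : ∀ p : ℕ, 1 ≤ p → ∀ N, ∃ i, N ≤ i ∧ x (i + p) ≠ x i) :
    ∃ N : ℕ → ℕ, 1 ≤ N 0 ∧ (∀ k, 3 * N k < N (k + 1)) ∧
      ∀ k t h, t ≤ 3 * N k → 1 ≤ h → h ≤ 3 * N k →
        ∃ i, t ≤ i ∧ i + h < N (k + 1) ∧ x (i + h) ≠ x i := by
  have hF : ∀ M : ℕ, ∃ F : ℕ, ∀ t h, t ≤ M → 1 ≤ h → h ≤ M →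
      ∃ i, t ≤ i ∧ i + h < F ∧ x (i + h) ≠ x i := by
    intro M
    choose! f hf1 hf2 using hx
    refine ⟨(Finset.range (M + 1) ×ˢ Finset.range (M + 1)).sup (fun q => f q.2 q.1 + q.2) + 1, ?_⟩
    intro t h ht h1 h2
    refine ⟨f h t, hf1 h h1 t, ?_, hf2 h h1 t⟩
    have : f h t + h ≤ (Finset.range (M + 1) ×ˢ Finset.range (M + 1)).sup
        (fun q => f q.2 q.1 + q.2) :=
      Finset.le_sup (f := fun q : ℕ × ℕ => f q.2 q.1 + q.2) (b := (t, h))
        (by
          rw [Finset.mem_product, Finset.mem_range, Finset.mem_range]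
          simp only
          omega)
    omega
  choose F hF using hF
  let N : ℕ → ℕ := fun n => Nat.rec 1 (fun _ m => max (F (3 * m)) (3 * m + 1)) n
  have hN : ∀ k, N (k + 1) = max (F (3 * N k)) (3 * N k + 1) := fun k => rfl
  refine ⟨N, le_rfl, ?_, ?_⟩
  · intro k
    rw [hN]
    have := le_max_right (F (3 * N k)) (3 * N k + 1)
    omega
  · intro k t h ht h1 h2
    obtain ⟨i, h3, h4, h5⟩ := hF (3 * N k) t h ht h1 h2
    refine ⟨i, h3, ?_, h5⟩
    rw [hN]
    exact lt_of_lt_of_le h4 (le_max_left _ _)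

/-- scale of a number with respect to thresholds -/
def scale (N : ℕ → ℕ) (b : ℕ) : ℕ := Nat.findGreatest (fun k => N k ≤ b) b

/-- cut length -/
def cut (N : ℕ → ℕ) (b : ℕ) : ℕ := N (scale N b - 2)

section scale
variable {N : ℕ → ℕ} (h0 : 1 ≤ N 0) (hN : ∀ k, 3 * N k < N (k + 1))
include hN

theorem N_mono : StrictMono N := by
  apply strictMono_nat_of_lt_succ
  intro k
  have := hN k
  omega

theorem N_le {i j : ℕ} (h : i ≤ j) : N i ≤ N j := (N_mono hN).monotone h

include h0

theorem N_gt (k : ℕ) : k + 1 ≤ N k := by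
  induction k with
  | zero => simpa using h0
  | succ k ih =>
    have := hN k
    omega

theorem N_scale_le {b : ℕ} (hb : N 0 ≤ b) : N (scale N b) ≤ b :=
  Nat.findGreatest_spec (P := fun k => N k ≤ b) (Nat.zero_le b) hb

theorem lt_N_scale (b : ℕ) : b < N (scale N b + 1) := by
  by_contra h
  push Not at h
  have h1 : scale N b + 1 ≤ b := by
    have := N_gt h0 hN (scale N b + 1)
    omega
  have h2 := Nat.le_findGreatest (P := fun k => N k ≤ b) h1 h
  change scale N b + 1 ≤ scale N b at h2
  omega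

theorem scale_mono {b b' : ℕ} (h : b ≤ b') : scale N b ≤ scale N b' := by
  by_cases hb : N 0 ≤ b
  · apply Nat.le_findGreatest (P := fun k => N k ≤ b')
    · have h1 := N_scale_le h0 hN hb
      have h2 := N_gt h0 hN (scale N b)
      omega
    · exact (N_scale_le h0 hN hb).trans h
  · have : scale N b = 0 := by
      unfold scale
      rw [Nat.findGreatest_eq_zero_iff]
      intro k _ _ h2
      exact hb ((N_le hN (Nat.zero_le k)).trans h2)
    omega

theorem cut_mono {b b' : ℕ} (h : b ≤ b') : cut N b ≤ cut N b' := by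
  apply N_le hN
  have := scale_mono h0 hN h
  omega

end scale

/-- The data of a good sequence for the colouring. -/
structure Seq (x : ℕ → X) (C : ℕ) (N : ℕ → ℕ) (u : ℕ → List X) : Prop where
  ne : ∀ n, u n ≠ []
  le : ∀ n, fin x (u n) ≤ fst x (u (n + 1))
  gap : ∀ n, fst x (u (n + 1)) ≤ fin x (u n) + C
  fac : ∀ k : List ℕ, k ≠ [] → k.Pairwise (· < ·) → ∃ n, Occ x (k.map u).flatten n
  sc : ∀ k l : List ℕ, k ≠ [] → k.Pairwise (· < ·) → l ≠ [] → l.Pairwise (· < ·) →
    scale N (fin x (k.map u).flatten) % 3 = scale N (fin x (l.map u).flatten) % 3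
  dr : ∀ k l : List ℕ, k ≠ [] → k.Pairwise (· < ·) → l ≠ [] → l.Pairwise (· < ·) →
    (fin x ((k.map u).flatten.drop (cut N (fin x (k.map u).flatten))) = fin x (k.map u).flatten ↔
     fin x ((l.map u).flatten.drop (cut N (fin x (l.map u).flatten))) = fin x (l.map u).flatten)
  su : ∀ k l : List ℕ, k ≠ [] → k.Pairwise (· < ·) → l ≠ [] → l.Pairwise (· < ·) →
    ((∀ t, 2 * t < fst x (k.map u).flatten →
      x (fst x (k.map u).flatten - 1 - t) = x (fin x (k.map u).flatten - 1 - t)) ↔
    (∀ t, 2 * t < fst x (l.map u).flatten →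
      x (fst x (l.map u).flatten - 1 - t) = x (fin x (l.map u).flatten - 1 - t)))

section main
variable {C : ℕ} {N : ℕ → ℕ} {u : ℕ → List X}

theorem pw_single (n : ℕ) : [n].Pairwise (· < ·) := List.pairwise_singleton _ n

theorem map_single (u : ℕ → List X) (n : ℕ) : ([n].map u).flatten = u n := by simp

theorem Seq.occ (h : Seq x C N u) (n : ℕ) : Occ x (u n) (fst x (u n)) := by
  have := h.fac [n] (by simp) (pw_single n)
  rw [map_single] at this
  exact fst_occ this

theorem Seq.len (h : Seq x C N u) (n : ℕ) : 1 ≤ (u n).length :=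
  List.length_pos_iff.mpr (h.ne n)

theorem Seq.fin_lt (h : Seq x C N u) (n : ℕ) : fin x (u n) < fin x (u (n + 1)) := by
  have h1 := h.le n
  have h2 := h.len (n + 1)
  unfold fin at *
  omega

theorem Seq.fin_mono (h : Seq x C N u) : StrictMono (fun n => fin x (u n)) :=
  strictMono_nat_of_lt_succ h.fin_lt

theorem Seq.fin_ge (h : Seq x C N u) (n : ℕ) : n + 1 ≤ fin x (u n) := by
  induction n with
  | zero =>
    have := h.len 0
    unfold fin
    omega
  | succ n ih =>
    have := h.fin_lt n
    omega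

theorem Seq.fin_le_fst (h : Seq x C N u) {i j : ℕ} (hij : i < j) :
    fin x (u i) ≤ fst x (u j) := by
  obtain ⟨m, rfl⟩ : ∃ m, j = m + 1 := ⟨j - 1, by omega⟩
  exact (h.fin_mono.monotone (show i ≤ m by omega)).trans (h.le m)

theorem Seq.fst_lt (h : Seq x C N u) {i j : ℕ} (hij : i < j) :
    fst x (u i) < fst x (u j) := by
  have h1 := h.fin_le_fst hij
  have h2 := h.len i
  unfold fin at h1
  omega

/-- length of a concatenation -/
theorem Seq.flat_len (h : Seq x C N u) : ∀ (k : List ℕ), k.Pairwise (· < ·) →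
    ∀ j, (∀ i ∈ k, i < j) → ((k.map u).flatten).length ≤ fst x (u j) := by
  intro k
  induction k using List.reverseRecOn with
  | nil => intro _ j _; simp
  | append_singleton k i ih =>
    intro hk j hj
    rw [List.pairwise_append] at hk
    have h1 := ih hk.1 i (fun a ha => hk.2.2 a ha i (by simp))
    have h2 := h.fin_le_fst (hj i (by simp))
    rw [List.map_append, List.flatten_append, List.length_append, map_single]
    unfold fin at h2
    omega

/-- jumps of the scale -/
def Jump (x : ℕ → X) (N : ℕ → ℕ) (u : ℕ → List X) (n : ℕ) : Prop :=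
  scale N (fin x (u n)) < scale N (fin x (u (n + 1)))

theorem Seq.jump_ge (h : Seq x C N u) {n : ℕ} (hn : Jump x N u n) :
    scale N (fin x (u n)) + 3 ≤ scale N (fin x (u (n + 1))) := by
  have h1 := h.sc [n] [n + 1] (by simp) (pw_single _) (by simp) (pw_single _)
  rw [map_single, map_single] at h1
  unfold Jump at hn
  omega

theorem Seq.exists_jump (h : Seq x C N u) (h0 : 1 ≤ N 0) (hN : ∀ k, 3 * N k < N (k + 1))
    (m : ℕ) : ∃ n, m ≤ n ∧ Jump x N u n := by
  by_contra hcon
  push Not at hcon
  have h1 : ∀ d, scale N (fin x (u (m + d))) = scale N (fin x (u m)) := by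
    intro d
    induction d with
    | zero => rfl
    | succ d ih =>
      have h2 := hcon (m + d) (by omega)
      unfold Jump at h2
      have h3 := scale_mono h0 hN (h.fin_lt (m + d)).le
      rw [show m + (d + 1) = m + d + 1 by ring]
      omega
  have h2 := lt_N_scale h0 hN (fin x (u (m + N (scale N (fin x (u m)) + 1))))
  rw [h1] at h2
  have h3 := h.fin_ge (m + N (scale N (fin x (u m)) + 1))
  omega

theorem Seq.fin_lt_cut (h : Seq x C N u) (h0 : 1 ≤ N 0) (hN : ∀ k, 3 * N k < N (k + 1))
    {n : ℕ} (hn : Jump x N u n) : fin x (u n) < cut N (fin x (u (n + 1))) := by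
  have h1 := lt_N_scale h0 hN (fin x (u n))
  have h2 := h.jump_ge hn
  exact lt_of_lt_of_le h1 (N_le hN (by omega))

/-- the cut property holds for all concatenations -/
theorem Seq.drop_true (h : Seq x C N u) (h0 : 1 ≤ N 0) (hN : ∀ k, 3 * N k < N (k + 1))
    (hF : ∀ k t h, t ≤ 3 * N k → 1 ≤ h → h ≤ 3 * N k →
        ∃ i, t ≤ i ∧ i + h < N (k + 1) ∧ x (i + h) ≠ x i)
    (k : List ℕ) (hk : k ≠ []) (hk' : k.Pairwise (· < ·)) :
    fin x ((k.map u).flatten.drop (cut N (fin x (k.map u).flatten))) =
      fin x (k.map u).flatten := by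
  obtain ⟨n, hn, hj⟩ := h.exists_jump h0 hN C
  rw [h.dr k [n + 1] hk hk' (by simp) (pw_single _), map_single]
  by_contra hne
  set w := u (n + 1) with hw
  set b := fin x w with hb
  set θ := cut N b with hθ
  have h1 := h.fin_lt_cut h0 hN hj
  rw [← hw, ← hb, ← hθ] at h1
  have h2 := h.gap n
  rw [← hw] at h2
  have h3 := h.fin_ge n
  have hocc := h.occ (n + 1)
  rw [← hw] at hocc
  have hbig : N (scale N b - 2 + 1) ≤ b := by
    have h4 := h.jump_ge hj
    rw [← hw, ← hb] at h4
    have h5 : N (scale N b) ≤ b := by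
      apply N_scale_le h0 hN
      have h7 : N 0 ≤ θ := N_le hN (Nat.zero_le _)
      by_contra h6
      push Not at h6
      have : scale N b = 0 := by
        unfold scale
        rw [Nat.findGreatest_eq_zero_iff]
        intro k _ _ h8
        exact absurd ((N_le hN (Nat.zero_le k)).trans h8) (not_le.mpr h6)
      omega
    exact (N_le hN (by omega)).trans h5
  have h3θ : 3 * θ < b := lt_of_lt_of_le (hN _) hbig
  have hbw : b = fst x w + w.length := rfl
  have hlen : (w.drop θ).length = w.length - θ := List.length_drop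
  have hθw : θ < w.length := by omega
  have hsub := fin_drop θ ⟨_, hocc⟩
  have hlt : fin x (w.drop θ) < b := lt_of_le_of_ne hsub hne
  have hocc2 : Occ x (w.drop θ) (fst x w + θ) := by
    have h4 : Occ x (w.take θ ++ w.drop θ) (fst x w) := by
      rw [List.take_append_drop]; exact hocc
    rw [Occ.append_iff] at h4
    have h5 : (w.take θ).length = θ := by rw [List.length_take]; omega
    rw [h5] at h4
    exact h4.2
  have hocc1 := fst_occ ⟨_, hocc2⟩
  have hfin : fin x (w.drop θ) = fst x (w.drop θ) + (w.length - θ) := by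
    unfold fin; rw [hlen]
  set A := fst x (w.drop θ) with hA
  have hθN : θ = N (scale N b - 2) := rfl
  obtain ⟨i, hi1, hi2, hi3⟩ := hF (scale N b - 2) A (fst x w + θ - A) (by omega) (by omega)
    (by omega)
  apply hi3
  have h6 := hocc1.eq hocc2 (t := i - A) (by rw [hlen]; omega)
  rw [show A + (i - A) = i by omega] at h6
  rw [h6]
  congr 1
  omega

/-- concatenations before a jump block are in place -/
theorem Seq.place (h : Seq x C N u) (h0 : 1 ≤ N 0) (hN : ∀ k, 3 * N k < N (k + 1))
    (hF : ∀ k t h, t ≤ 3 * N k → 1 ≤ h → h ≤ 3 * N k →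
        ∃ i, t ≤ i ∧ i + h < N (k + 1) ∧ x (i + h) ≠ x i)
    {n : ℕ} (hn : Jump x N u n) (k : List ℕ) (hk : k.Pairwise (· < ·)) (hkn : ∀ i ∈ k, i ≤ n) :
    EndsAt x (k.map u).flatten (fst x (u (n + 1))) ∧
      EndsAt x ((k.map u).flatten ++ u (n + 1)) (fin x (u (n + 1))) := by
  have hk2 : (k ++ [n + 1]).Pairwise (· < ·) := by
    rw [List.pairwise_append]
    refine ⟨hk, pw_single _, ?_⟩
    intro a ha b hb
    rw [List.mem_singleton] at hb
    have := hkn a ha
    omega
  have hw : ((k ++ [n + 1]).map u).flatten = (k.map u).flatten ++ u (n + 1) := by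
    rw [List.map_append, List.flatten_append, map_single]
  have hex := h.fac (k ++ [n + 1]) (by simp) hk2
  have hd := h.drop_true h0 hN hF (k ++ [n + 1]) (by simp) hk2
  rw [hw] at hex hd
  set p := (k.map u).flatten with hp
  have hlen : p.length ≤ fin x (u n) := by
    have h1 := h.flat_len k hk (n + 1) (fun i hi => by have := hkn i hi; omega)
    have h2 : p.length ≤ fin x (u n) := by
      rcases List.eq_nil_or_concat k with hnil | ⟨k', i, hk'⟩
      · rw [hp, hnil]; simp
      · rw [List.concat_eq_append] at hk'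
        rw [hk'] at hk hkn hp
        rw [List.pairwise_append] at hk
        have h3 := h.flat_len k' hk.1 i (fun a ha => hk.2.2 a ha i (by simp))
        have h4 : i ≤ n := hkn i (by simp)
        have h5 : fin x (u i) ≤ fin x (u n) := h.fin_mono.monotone h4
        rw [List.map_append, List.flatten_append, map_single] at hp
        rw [hp, List.length_append]
        unfold fin at h5 ⊢
        omega
    exact h2
  have hle := fin_suffix hex
  have hcut := h.fin_lt_cut h0 hN hn
  have heq : fin x (p ++ u (n + 1)) = fin x (u (n + 1)) := by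
    by_contra hne
    have hlt : fin x (u (n + 1)) < fin x (p ++ u (n + 1)) :=
      lt_of_le_of_ne hle (fun h' => hne h'.symm)
    have h1 := cut_mono h0 hN hlt.le
    have h2 : (p ++ u (n + 1)).drop (cut N (fin x (p ++ u (n + 1)))) =
        (u (n + 1)).drop (cut N (fin x (p ++ u (n + 1))) - p.length) := by
      rw [List.drop_append]
      rw [List.drop_eq_nil_of_le (by omega), List.nil_append]
    rw [h2] at hd
    have h3 := fin_drop (x := x) (w := u (n + 1)) (cut N (fin x (p ++ u (n + 1))) - p.length)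
      ⟨_, h.occ (n + 1)⟩
    omega
  have hocc := fst_occ hex
  have hE : EndsAt x (p ++ u (n + 1)) (fin x (u (n + 1))) := by
    refine ⟨fst x (p ++ u (n + 1)), ?_, hocc⟩
    rw [← heq]; rfl
  refine ⟨?_, hE⟩
  obtain ⟨d, hd1, hd2, _⟩ := hE.append
  have : d = fst x (u (n + 1)) := by
    unfold fin at hd1; omega
  rw [← this]
  exact hd2

end main

end Pool.Agent.V11293.SM
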