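import Pool.Agent.V11293.SM.Core

set_option autoImplicit false

namespace Pool.Agent.V11293.SM

universe u

variable {X : Type u} {x : ℕ → X} {C : ℕ} {N : ℕ → ℕ} {u : ℕ → List X}

theorem pw_range (s n : ℕ) : (List.range' s n).Pairwise (· < ·) := List.pairwise_lt_range'

theorem Seq.run (h : Seq x C N u) (i : ℕ) : ∀ m : ℕ,
    (∀ j, i ≤ j → j < i + m → fst x (u (j + 1)) = fin x (u j)) →
    fst x (u i) + (((List.range' i m).map u).flatten).length = fst x (u (i + m)) ∧
      Occ x ((List.range' i m).map u).flatten (fst x (u i)) := by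
  intro m
  induction m with
  | zero =>
    intro _
    refine ⟨by simp, ?_⟩
    intro j hj
    simp at hj
  | succ m ih =>
    intro hg
    obtain ⟨h1, h2⟩ := ih (fun j hj hj' => hg j hj (by omega))
    have h3 := hg (i + m) (by omega) (by omega)
    rw [List.range'_1_concat, List.map_append, List.flatten_append, map_single]
    rw [List.length_append]
    unfold fin at h3
    refine ⟨by rw [show i + (m + 1) = i + m + 1 by ring]; omega, ?_⟩
    rw [Occ.append_iff]
    refine ⟨h2, ?_⟩
    rw [h1]
    exact h.occ (i + m)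

theorem Seq.len_ge (h : Seq x C N u) (k : List ℕ) :
    k.length ≤ ((k.map u).flatten).length := by
  induction k with
  | nil => simp
  | cons a k ih =>
    have := h.len a
    rw [List.map_cons, List.flatten_cons, List.length_append, List.length_cons]
    omega

section
variable (h : Seq x C N u) (h0 : 1 ≤ N 0) (hN : ∀ k, 3 * N k < N (k + 1))
    (hF : ∀ k t h, t ≤ 3 * N k → 1 ≤ h → h ≤ 3 * N k →
        ∃ i, t ≤ i ∧ i + h < N (k + 1) ∧ x (i + h) ≠ x i)
include h h0 hN hF

theorem Seq.inj_len : Function.Injective (fun i => (u i).length) := by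
  have key : ∀ i j, i < j → (u i).length ≠ (u j).length := by
    intro i j hij heq
    obtain ⟨n, hn, hj⟩ := h.exists_jump h0 hN j
    obtain ⟨s, hs, h1⟩ := (h.place h0 hN hF hj [i] (pw_single _) (by
      intro a ha; rw [List.mem_singleton] at ha; omega)).1
    obtain ⟨s', hs', h2⟩ := (h.place h0 hN hF hj [j] (pw_single _) (by
      intro a ha; rw [List.mem_singleton] at ha; omega)).1
    rw [map_single] at hs hs' h1 h2
    have hss : s = s' := by omega
    subst hss
    have := h1.ext h2 heq
    have h3 := h.fst_lt hij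
    rw [this] at h3
    exact lt_irrefl _ h3
  intro i j hij
  rcases lt_trichotomy i j with hlt | heq | hlt
  · exact absurd hij (key i j hlt)
  · exact heq
  · exact absurd hij.symm (key j i hlt)

theorem Seq.len_large (L : ℕ) : ∃ m, ∀ i, m ≤ i → L ≤ (u i).length := by
  have h1 := (h.inj_len h0 hN hF).nat_tendsto_atTop
  exact Filter.eventually_atTop.mp (h1.eventually_ge_atTop L)

theorem Seq.special (hinf : ∀ m, ∃ i, m ≤ i ∧ fin x (u i) < fst x (u (i + 1))) (m : ℕ) :
    ∃ i, m ≤ i ∧ ∃ g, 1 ≤ g ∧ g ≤ C ∧ Per (u i) g := by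
  classical
  obtain ⟨i0, hi0, hg0⟩ := hinf m
  obtain ⟨n, hn, hj⟩ := h.exists_jump h0 hN i0
  let P : ℕ → Prop := fun i => fin x (u i) < fst x (u (i + 1))
  let i := Nat.findGreatest P n
  have hPi : P i := Nat.findGreatest_spec (P := P) hn hg0
  have hi1 : i0 ≤ i := Nat.le_findGreatest hn hg0
  have hi2 : i ≤ n := Nat.findGreatest_le n
  have hi3 : ∀ j, i < j → j ≤ n → ¬ P j := fun j hj1 hj2 =>
    Nat.findGreatest_is_greatest hj1 hj2
  have hpl := (h.place h0 hN hF hj ([i] ++ List.range' (i + 1) (n - i)) (by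
    rw [List.pairwise_append]
    refine ⟨pw_single _, pw_range _ _, ?_⟩
    intro a ha b hb
    rw [List.mem_singleton] at ha
    rw [List.mem_range'_1] at hb
    omega) (by
    intro a ha
    rw [List.mem_append, List.mem_singleton, List.mem_range'_1] at ha
    omega)).1
  rw [List.map_append, List.flatten_append, map_single] at hpl
  obtain ⟨d, hd1, ⟨s, hs, hocc⟩, _⟩ := hpl.append
  have hrun := (h.run (i + 1) (n - i) (by
    intro j hj1 hj2
    have h1 := hi3 j (by omega) (by omega)
    have h2 := h.le j
    simp only [P] at h1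
    omega)).1
  rw [show i + 1 + (n - i) = n + 1 by omega] at hrun
  have hd : d = fst x (u (i + 1)) := by omega
  have hgap := h.gap i
  have hocc0 := h.occ i
  simp only [P] at hPi
  refine ⟨i, by omega, fst x (u (i + 1)) - fin x (u i), by omega, by omega, ?_⟩
  intro t ht
  rw [hocc0 _ ht, hocc t (by omega)]
  congr 1
  unfold fin at *
  omega

theorem Seq.no_gaps (hinf : ∀ m, ∃ i, m ≤ i ∧ fin x (u i) < fst x (u (i + 1))) : False := by
  set H := C.factorial with hH
  have hHpos : 1 ≤ H := Nat.factorial_pos C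
  obtain ⟨n, hn, hj⟩ := h.exists_jump h0 hN H
  have hpl := (h.place h0 hN hF hj (List.range' 0 (n + 1)) (pw_range _ _) (by
    intro a ha
    rw [List.mem_range'_1] at ha
    omega)).2
  set p := ((List.range' 0 (n + 1)).map u).flatten with hp
  have hplen : n + 1 ≤ p.length := by
    have := h.len_ge (List.range' 0 (n + 1))
    rw [List.length_range'] at this
    exact this
  obtain ⟨m, hm⟩ := h.len_large h0 hN hF (p ++ u (n + 1)).length
  obtain ⟨i, hi, g, hg1, hg2, hper⟩ := h.special h0 hN hF hinf (max m (n + 1))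
  have hi1 : m ≤ i := le_trans (le_max_left _ _) hi
  have hi2 : n + 1 ≤ i := le_trans (le_max_right _ _) hi
  have hperH : Per (u i) H := hper.of_dvd (Nat.dvd_factorial (by omega) hg2)
  obtain ⟨m', hm', hj'⟩ := h.exists_jump h0 hN i
  have h1 := (h.place h0 hN hF hj' (List.range' 0 (n + 1 + 1)) (pw_range _ _) (by
    intro a ha
    rw [List.mem_range'_1] at ha
    omega)).1
  rw [List.range'_1_concat, List.map_append, List.flatten_append, map_single, ← hp,
    Nat.zero_add] at h1
  have h2 := (h.place h0 hN hF hj' [i] (pw_single _) (by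
    intro a ha
    rw [List.mem_singleton] at ha
    omega)).1
  rw [map_single] at h2
  have hperq : Per (p ++ u (n + 1)) H := hperH.suffix h1 h2 (hm i hi1)
  obtain ⟨s, hs, hocc⟩ := hpl
  rw [List.length_append] at hs
  have hfin : fin x (u (n + 1)) = fst x (u (n + 1)) + (u (n + 1)).length := rfl
  have hnew : Occ x (u (n + 1)) (fst x (u (n + 1)) - H) := by
    apply (h.occ (n + 1)).of_eq
    intro t ht
    have h3 : (p.length + t - H) + H < (p ++ u (n + 1)).length := by
      rw [List.length_append]; omega
    have h4 := hperq (p.length + t - H) h3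
    rw [hocc _ h3, hocc _ (by omega)] at h4
    rw [show fst x (u (n + 1)) + t = s + (p.length + t - H + H) by omega,
      show fst x (u (n + 1)) - H + t = s + (p.length + t - H) by omega]
    exact h4
  have h5 := fst_le hnew
  omega

theorem Seq.periodic (n0 : ℕ) (hz : ∀ i, n0 ≤ i → fst x (u (i + 1)) = fin x (u i)) :
    ∀ i, fst x (u n0) ≤ i → x (i + (u n0).length) = x i := by
  -- the suffix property holds for all concatenations
  have hsu : ∀ k : List ℕ, k ≠ [] → k.Pairwise (· < ·) →
      ∀ t, 2 * t < fst x (k.map u).flatten →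
      x (fst x (k.map u).flatten - 1 - t) = x (fin x (k.map u).flatten - 1 - t) := by
    obtain ⟨n, hn, hj⟩ := h.exists_jump h0 hN (max n0 (2 * fst x (u n0)))
    have hn1 : n0 ≤ n := le_trans (le_max_left _ _) hn
    have hn2 : 2 * fst x (u n0) ≤ n := le_trans (le_max_right _ _) hn
    obtain ⟨m, hm, hj'⟩ := h.exists_jump h0 hN (n + 1)
    intro k hk hk'
    have hV : (List.range' (n + 1) (m - n)) ≠ [] := by
      intro h'
      have := congrArg List.length h'
      rw [List.length_range'] at this
      simp only [List.length_nil] at this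
      omega
    rw [h.su k (List.range' (n + 1) (m - n)) hk hk' hV (pw_range _ _)]
    obtain ⟨r1, r2⟩ := h.run (n + 1) (m - n) (fun j hj1 _ => hz j (by omega))
    rw [show n + 1 + (m - n) = m + 1 by omega] at r1
    set V := ((List.range' (n + 1) (m - n)).map u).flatten with hVdef
    have hfst : fst x V = fst x (u (n + 1)) := by
      apply le_antisymm (fst_le r2)
      have h1 := fst_occ ⟨_, r2⟩
      have h2 : V = u (n + 1) ++ ((List.range' (n + 1 + 1) (m - n - 1)).map u).flatten := by
        rw [hVdef]
        obtain ⟨e, he⟩ : ∃ e, m - n = e + 1 := ⟨m - n - 1, by omega⟩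
        rw [he, List.range'_succ, List.map_cons, List.flatten_cons]
        rfl
      rw [h2] at h1
      rw [Occ.append_iff, ← h2] at h1
      exact fst_le h1.1
    have hfin : fin x V = fst x (u (m + 1)) := by
      unfold fin; rw [hfst, r1]
    rw [hfst, hfin]
    intro t ht
    obtain ⟨q1, q2⟩ := h.run n0 (n + 1 - n0) (fun j hj1 _ => hz j (by omega))
    rw [show n0 + (n + 1 - n0) = n + 1 by omega] at q1
    obtain ⟨s, hs, q3⟩ := (h.place h0 hN hF hj' (List.range' n0 (n + 1 - n0)) (pw_range _ _) (by
      intro a ha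
      rw [List.mem_range'_1] at ha
      omega)).1
    set P := ((List.range' n0 (n + 1 - n0)).map u).flatten with hPdef
    have hbig : n + 1 ≤ fst x (u (n + 1)) := (h.fin_ge n).trans (h.le n)
    have h3 := q2.eq q3 (t := P.length - 1 - t) (by omega)
    rw [show fst x (u (n + 1)) - 1 - t = fst x (u n0) + (P.length - 1 - t) by omega,
      show fst x (u (m + 1)) - 1 - t = s + (P.length - 1 - t) by omega]
    exact h3
  set π := (u n0).length with hπ
  -- comparison of suffixes
  have hstar : ∀ n, n0 ≤ n → Jump x N u n → ∀ t, 2 * t < fst x (u (n + 1)) - π →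
      t < fst x (u (n + 1)) - fst x (u n0) →
      x (fst x (u (n + 1)) - π - 1 - t) = x (fst x (u (n + 1)) - 1 - t) := by
    intro n hn hj t ht1 ht2
    obtain ⟨m, hm, hj'⟩ := h.exists_jump h0 hN (n + 1)
    obtain ⟨r1, r2⟩ := h.run (n + 1) (m - n) (fun j hj1 _ => hz j (by omega))
    rw [show n + 1 + (m - n) = m + 1 by omega] at r1
    have hk' : ([n0] ++ List.range' (n + 1) (m - n)).Pairwise (· < ·) := by
      rw [List.pairwise_append]
      refine ⟨pw_single _, pw_range _ _, ?_⟩
      intro a ha b hb
      rw [List.mem_singleton] at ha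
      rw [List.mem_range'_1] at hb
      omega
    have h1 := hsu ([n0] ++ List.range' (n + 1) (m - n)) (by simp) hk'
    rw [List.map_append, List.flatten_append, map_single] at h1
    set V := ((List.range' (n + 1) (m - n)).map u).flatten with hVdef
    obtain ⟨s, hs, hocc⟩ := (h.place h0 hN hF hj [n0] (pw_single _) (by
      intro a ha; rw [List.mem_singleton] at ha; omega)).1
    rw [map_single] at hs hocc
    have hoccw : Occ x (u n0 ++ V) s := by
      rw [Occ.append_iff, hs]
      exact ⟨hocc, r2⟩
    have hfstV : fst x V = fst x (u (n + 1)) := by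
      apply le_antisymm (fst_le r2)
      have h1 := fst_occ ⟨_, r2⟩
      have h2 : V = u (n + 1) ++ ((List.range' (n + 1 + 1) (m - n - 1)).map u).flatten := by
        rw [hVdef]
        obtain ⟨e, he⟩ : ∃ e, m - n = e + 1 := ⟨m - n - 1, by omega⟩
        rw [he, List.range'_succ, List.map_cons, List.flatten_cons]
        rfl
      rw [h2] at h1
      rw [Occ.append_iff, ← h2] at h1
      exact fst_le h1.1
    have hsuf := fin_suffix ⟨_, hoccw⟩
    have hle := fst_le hoccw
    have hfstw : fst x (u n0 ++ V) = s := by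
      unfold fin at hsuf
      rw [List.length_append] at hsuf
      omega
    have hfinw : fin x (u n0 ++ V) = fst x (u (m + 1)) := by
      unfold fin
      rw [hfstw, List.length_append]
      omega
    rw [hfstw, hfinw] at h1
    have h2 := h1 t (by omega)
    obtain ⟨q1, q2⟩ := h.run n0 (n + 1 - n0) (fun j hj1 _ => hz j (by omega))
    rw [show n0 + (n + 1 - n0) = n + 1 by omega] at q1
    obtain ⟨s', hs', q3⟩ := (h.place h0 hN hF hj' (List.range' n0 (n + 1 - n0)) (pw_range _ _) (by
      intro a ha
      rw [List.mem_range'_1] at ha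
      omega)).1
    set P := ((List.range' n0 (n + 1 - n0)).map u).flatten with hPdef
    have h3 := q2.eq q3 (t := P.length - 1 - t) (by omega)
    rw [show fst x (u (n + 1)) - π - 1 - t = s - 1 - t by omega, h2,
      show fst x (u (n + 1)) - 1 - t = fst x (u n0) + (P.length - 1 - t) by omega,
      show fst x (u (m + 1)) - 1 - t = s' + (P.length - 1 - t) by omega]
    exact h3.symm
  intro i hi
  obtain ⟨n1, hn1, hj1⟩ := h.exists_jump h0 hN (max n0 (i + π))
  have hn1a : n0 ≤ n1 := le_trans (le_max_left _ _) hn1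
  have hn1b : i + π ≤ n1 := le_trans (le_max_right _ _) hn1
  have hbig1 : n1 + 1 ≤ fst x (u (n1 + 1)) := (h.fin_ge n1).trans (h.le n1)
  set ℓ := fst x (u (n1 + 1)) - fst x (u n0) with hℓ
  obtain ⟨n, hn, hj⟩ := h.exists_jump h0 hN (max (n1 + 1) (2 * ℓ + π))
  have hna : n1 + 1 ≤ n := le_trans (le_max_left _ _) hn
  have hnb : 2 * ℓ + π ≤ n := le_trans (le_max_right _ _) hn
  have hbig : n + 1 ≤ fst x (u (n + 1)) := (h.fin_ge n).trans (h.le n)
  have hmono : fst x (u (n1 + 1)) < fst x (u (n + 1)) := h.fst_lt (by omega)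
  obtain ⟨q1, q2⟩ := h.run n0 (n1 + 1 - n0) (fun j hj1 _ => hz j (by omega))
  rw [show n0 + (n1 + 1 - n0) = n1 + 1 by omega] at q1
  obtain ⟨s, hs, q3⟩ := (h.place h0 hN hF hj (List.range' n0 (n1 + 1 - n0)) (pw_range _ _) (by
    intro a ha
    rw [List.mem_range'_1] at ha
    omega)).1
  set P := ((List.range' n0 (n1 + 1 - n0)).map u).flatten with hPdef
  have hPl : P.length = ℓ := by omega
  have e1 := q2.eq q3 (t := i - fst x (u n0) + π) (by omega)
  have e2 := q2.eq q3 (t := i - fst x (u n0)) (by omega)
  rw [show fst x (u n0) + (i - fst x (u n0) + π) = i + π by omega] at e1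
  rw [show fst x (u n0) + (i - fst x (u n0)) = i by omega] at e2
  have e3 := hstar n (by omega) hj (ℓ - 1 - (i - fst x (u n0) + π)) (by omega) (by omega)
  rw [e1, e2]
  rw [show s + (i - fst x (u n0) + π) =
      fst x (u (n + 1)) - 1 - (ℓ - 1 - (i - fst x (u n0) + π)) by omega,
    show s + (i - fst x (u n0)) =
      fst x (u (n + 1)) - π - 1 - (ℓ - 1 - (i - fst x (u n0) + π)) by omega]
  exact e3.symm

end

end Pool.Agent.V11293.SM
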