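import Mathlib

set_option autoImplicit false

namespace Pool.Agent.V11293.SM

universe u

variable {X : Type u} (x : ℕ → X)

/-- `u` occurs in `x` at position `n`. -/
def Occ (u : List X) (n : ℕ) : Prop := ∀ (i : ℕ) (h : i < u.length), u[i] = x (n + i)

/-- position of the first occurrence -/
noncomputable def fst (u : List X) : ℕ := sInf {n | Occ x u n}

/-- end of the first occurrence -/
noncomputable def fin (u : List X) : ℕ := fst x u + u.length

variable {x}

theorem fst_occ {u : List X} (h : ∃ n, Occ x u n) : Occ x u (fst x u) := Nat.sInf_mem h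

theorem fst_le {u : List X} {n : ℕ} (h : Occ x u n) : fst x u ≤ n := Nat.sInf_le h

theorem Occ.append_iff {p q : List X} {n : ℕ} :
    Occ x (p ++ q) n ↔ Occ x p n ∧ Occ x q (n + p.length) := by
  constructor
  · intro h
    refine ⟨?_, ?_⟩
    · intro i hi
      have h1 := h i (by rw [List.length_append]; omega)
      rw [List.getElem_append_left hi] at h1
      exact h1
    · intro i hi
      have h1 := h (p.length + i) (by rw [List.length_append]; omega)
      rw [List.getElem_append_right (by omega)] at h1
      simp only [Nat.add_sub_cancel_left] at h1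
      rw [h1]
      congr 1
      omega
  · rintro ⟨h1, h2⟩ i hi
    by_cases hip : i < p.length
    · rw [List.getElem_append_left hip]
      exact h1 i hip
    · rw [List.getElem_append_right (by omega)]
      rw [List.length_append] at hi
      rw [h2 (i - p.length) (by omega)]
      congr 1
      omega

theorem Occ.eq {w : List X} {n m : ℕ} (h : Occ x w n) (h' : Occ x w m) {t : ℕ}
    (ht : t < w.length) : x (n + t) = x (m + t) := by
  rw [← h t ht, ← h' t ht]

theorem Occ.of_eq {w : List X} {n m : ℕ} (h : Occ x w n)
    (h' : ∀ t < w.length, x (n + t) = x (m + t)) : Occ x w m := by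
  intro i hi
  rw [h i hi]
  exact h' i hi

theorem Occ.ext {v w : List X} {n : ℕ} (h : Occ x v n) (h' : Occ x w n)
    (hl : v.length = w.length) : v = w := by
  apply List.ext_getElem hl
  intro i h1 h2
  rw [h i h1, h' i h2]

theorem fin_suffix {p q : List X} (h : ∃ n, Occ x (p ++ q) n) : fin x q ≤ fin x (p ++ q) := by
  have h1 := (Occ.append_iff.mp (fst_occ h)).2
  have h2 := fst_le h1
  unfold fin
  rw [List.length_append]
  omega

theorem fin_drop {w : List X} (k : ℕ) (h : ∃ n, Occ x w n) : fin x (w.drop k) ≤ fin x w := by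
  have h1 := List.take_append_drop k w
  rw [← h1] at h
  have h2 := fin_suffix h
  rwa [h1] at h2

/-- `w` ends at `c` -/
def EndsAt (x : ℕ → X) (w : List X) (c : ℕ) : Prop := ∃ s, s + w.length = c ∧ Occ x w s

theorem EndsAt.append {p q : List X} {c : ℕ} (h : EndsAt x (p ++ q) c) :
    ∃ d, d + q.length = c ∧ EndsAt x p d ∧ Occ x q d := by
  obtain ⟨s, hs, h1⟩ := h
  rw [List.length_append] at hs
  rw [Occ.append_iff] at h1
  exact ⟨s + p.length, by omega, ⟨s, rfl, h1.1⟩, h1.2⟩

/-- period `g` of a word -/
def Per (w : List X) (g : ℕ) : Prop :=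
  ∀ (t : ℕ) (h : t + g < w.length), w[t + g] = w[t]

theorem Per.mul {w : List X} {g : ℕ} (h : Per w g) : ∀ m : ℕ, Per w (g * m) := by
  intro m
  induction m with
  | zero => intro t ht; simp
  | succ m ih =>
    intro t ht
    have h1 : t + g * m + g < w.length := by rw [Nat.mul_succ] at ht; omega
    have h2 := h (t + g * m) h1
    have h3 := ih t (by omega)
    rw [← h3, ← h2]
    congr 1
    ring

theorem Per.of_dvd {w : List X} {g g' : ℕ} (h : Per w g) (hd : g ∣ g') : Per w g' := by
  obtain ⟨m, rfl⟩ := hd
  exact h.mul m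

theorem Per.suffix {v w : List X} {g c : ℕ} (hw : Per w g) (hv : EndsAt x v c)
    (hw' : EndsAt x w c) (hl : v.length ≤ w.length) : Per v g := by
  obtain ⟨s, hs, h1⟩ := hv
  obtain ⟨s', hs', h2⟩ := hw'
  intro t ht
  have e1 := h1 (t + g) ht
  have e2 := h1 t (by omega)
  have hlen : (s - s') + t + g < w.length := by omega
  have e3 := h2 ((s - s') + t + g) hlen
  have e4 := h2 ((s - s') + t) (by omega)
  have e5 := hw ((s - s') + t) hlen
  rw [e1, e2]
  rw [e3, e4] at e5
  have h6 : s + (t + g) = s' + ((s - s') + t + g) := by omega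
  have h7 : s + t = s' + ((s - s') + t) := by omega
  rw [h6, h7]
  exact e5

end Pool.Agent.V11293.SM
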